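import Pool.Agent.J6H54.CG.Stm

/-!
# CG-02: upper bound for the length of translations
-/

set_option autoImplicit false

namespace Pool.Agent.J6H97.CG02

open Pool.Agent.J6H54.CG

variable {k R : ℕ} {T : Finset Pt}

/-- triangle inequality in coordinates, with given coordinates of the product -/
theorem len_add' (hT : Gen k T) {x y z : ℚ} {m n l : ℤ} (hx : KA k x) (hy : KA k y)
    (h1 : x + (k : ℚ) ^ m * y = z) (h2 : m + n = l) :
    len k T (z, l) ≤ len k T (x, m) + len k T (y, n) := by
  rw [← h1, ← h2]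
  exact len_add hT hx hy

theorem len_small (hT : Gen k T) (hB : Bd k T R) (d : ℕ) : len k T ((d : ℚ), 0) ≤ d * R := by
  induction d with
  | zero => simp [len_zero]
  | succ d ih =>
    have h := len_add' (k := k) (T := T) hT (x := (d : ℚ)) (y := 1) (z := ((d + 1 : ℕ) : ℚ)) (m := 0) (n := 0)
      (l := 0) (ka_nat d) (by simpa using ka_nat (k := k) 1) (by push_cast; simp) (by simp)
    have := hB.a_le
    rw [Nat.succ_mul]
    omega

theorem len_nat (hT : Gen k T) (hB : Bd k T R) (N : ℕ) : ∀ n : ℕ, n < k ^ N →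
    len k T ((n : ℚ), 0) ≤ (k * R + 2 * R) * N := by
  have hk := hT.two_le
  induction N with
  | zero =>
    intro n hn
    have : n = 0 := by simpa using hn
    subst this
    simp [len_zero]
  | succ N ih =>
    intro n hn
    have hn' : n / k < k ^ N := by
      rw [Nat.div_lt_iff_lt_mul (by omega)]
      rwa [pow_succ] at hn
    have h0 := ih _ hn'
    have h1 := len_add' (k := k) (T := T) hT (x := ((n / k : ℕ) : ℚ)) (y := 0) (z := ((n / k : ℕ) : ℚ)) (m := 0)
      (n := -1) (l := -1) (ka_nat _) ka_zero (by simp) (by simp)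
    have h2 := len_add' (k := k) (T := T) hT (x := 0) (y := ((n / k : ℕ) : ℚ)) (z := ((k * (n / k) : ℕ) : ℚ))
      (m := 1) (n := -1) (l := 0) ka_zero (ka_nat _) (by push_cast; simp) (by simp)
    have h3 := len_add' (k := k) (T := T) hT (x := ((n % k : ℕ) : ℚ)) (y := ((k * (n / k) : ℕ) : ℚ)) (z := (n : ℚ))
      (m := 0) (n := 0) (l := 0) (ka_nat _) (ka_nat _) (by
        rw [zpow_zero, one_mul, ← Nat.cast_add, Nat.mod_add_div]) (by simp)
    have h4 := len_small hT hB (n % k)
    have h5 : n % k * R ≤ k * R := Nat.mul_le_mul_right R (Nat.mod_lt n (by omega)).le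
    have h6 := hB.t_le
    have h7 := hB.t'_le
    rw [Nat.mul_succ]
    omega

theorem len_int (hT : Gen k T) (hB : Bd k T R) (N : ℕ) (a : ℤ) (ha : a.natAbs < k ^ N) :
    len k T ((a : ℚ), 0) ≤ (k * R + 2 * R) * N := by
  have h1 := len_nat hT hB N a.natAbs ha
  rcases Int.natAbs_eq a with h | h
  · have : (a : ℚ) = ((a.natAbs : ℕ) : ℚ) := by
      conv_lhs => rw [h]
      simp
    rw [this]
    exact h1
  · have : ((a : ℚ), (0 : ℤ)) = inv k (((a.natAbs : ℕ) : ℚ), 0) := by
      apply Prod.ext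
      · simp only [inv, neg_zero, zpow_zero, one_mul]
        conv_lhs => rw [h]
        simp
      · simp [inv]
    rw [this, len_inv hT (ka_nat _)]
    exact h1

theorem m02 : S_metric := by
  intro k T R hT hB
  have hk := hT.two_le
  have hkp := kpos hk
  refine ⟨2 * R + (k * R + 2 * R), ?_⟩
  rintro d L y ⟨a, ha⟩ hy
  have ha' : y * (k : ℚ) ^ d = a := by
    rw [← ha, zpow_natCast]
  have hlt : a.natAbs < k ^ (L + d + 1) := by
    have h1 : (|a| : ℚ) ≤ (k : ℚ) ^ (L + d) := by
      rw [← ha', abs_mul, abs_of_nonneg (pow_nonneg hkp.le d), pow_add]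
      exact mul_le_mul_of_nonneg_right hy (pow_nonneg hkp.le d)
    have h2 : a.natAbs ≤ k ^ (L + d) := by
      have h3 : ((a.natAbs : ℕ) : ℚ) = |(a : ℚ)| := by
        rw [Nat.cast_natAbs, Int.cast_abs]
      have h4 : ((a.natAbs : ℕ) : ℚ) ≤ ((k ^ (L + d) : ℕ) : ℚ) := by
        rw [h3]
        push_cast
        exact h1
      exact_mod_cast h4
    exact lt_of_le_of_lt h2 (Nat.pow_lt_pow_right (by omega) (by omega))
  have h1 := len_int hT hB (L + d + 1) a hlt
  have h2 := len_add' (k := k) (T := T) hT (x := (a : ℚ)) (y := 0) (z := (a : ℚ)) (m := 0)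
      (n := d) (l := d) (ka_int _) ka_zero (by simp) (by simp)
  have h3 := len_add' (k := k) (T := T) hT (x := 0) (y := (a : ℚ)) (z := y) (m := -d)
      (n := d) (l := 0) ka_zero (ka_int _) (by
        rw [zero_add, ← ha', zpow_neg, zpow_natCast]
        have : (k : ℚ) ^ d ≠ 0 := pow_ne_zero _ hkp.ne'
        field_simp) (by simp)
  have h4 := len_vert hT hB (d : ℤ)
  have h5 := len_vert hT hB (-(d : ℤ))
  rw [Int.natAbs_natCast] at h4
  rw [Int.natAbs_neg, Int.natAbs_natCast] at h5
  have h6 : (2 * R + (k * R + 2 * R)) * (d + L + 1) = 2 * R * (d + L + 1) + (k * R + 2 * R) * (L + d + 1) := by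
    ring
  have h7 : 2 * R * (d + L + 1) = R * d + R * d + 2 * R * (L + 1) := by ring
  rw [h6, h7]
  omega

end Pool.Agent.J6H97.CG02
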